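import Pool.Agent.H134Z.DcpE

set_option autoImplicit false

namespace Pool.Agent.Results.MP_8704cc_co.ClosedForm

/-- The area generating function of diagonally convex polyominoes is a quotient of two explicit
3 by 3 determinants of q-series. -/
theorem result : PowerSeries.constantCoeff Pool.Agent.H134Z.Dcp.Den = -1 ∧
    PowerSeries.mk (fun n : ℕ => (Pool.Agent.H134Z.Dcp.dcp n : ℚ)) =
      Pool.Agent.H134Z.Dcp.Num * Pool.Agent.H134Z.Dcp.Den⁻¹ :=
  ⟨Pool.Agent.H134Z.Dcp.den_const, (PowerSeries.eq_mul_inv_iff_mul_eq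
    (by rw [Pool.Agent.H134Z.Dcp.den_const]; norm_num)).2 Pool.Agent.H134Z.Dcp.main_eq⟩

end Pool.Agent.Results.MP_8704cc_co.ClosedForm
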